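import Pool.Agent.Dirac86.Long.Defs

/-!
# Counting marked elements whose cyclic predecessor is marked
-/

set_option autoImplicit false
open Finset Classical

namespace Pool.Agent.Dirac86.Long

/-- L1. -/
theorem cyc_count {κ : Type*} (A B : Finset κ) (hBA : B ⊆ A) (s : κ → ℝ)
    (hs : ∀ i ∈ A, ∀ j ∈ A, s i = s j → i = j) :
    2 * B.card ≤ (cyc A B s).card + A.card := by
  -- cyclic predecessor of every element of A
  have hpre : ∀ y ∈ A, ∃ y' ∈ A, (s y' < s y ∧ ∀ z ∈ A, ¬ (s y' < s z ∧ s z < s y)) ∨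
      ((∀ z ∈ A, s y ≤ s z) ∧ ∀ z ∈ A, s z ≤ s y') := by
    intro y hy
    by_cases h : ∃ z ∈ A, s z < s y
    · obtain ⟨z, hz, hzy⟩ := h
      obtain ⟨y', hy', hm⟩ := exists_max_image (A.filter (fun z => s z < s y)) s
        ⟨z, mem_filter.mpr ⟨hz, hzy⟩⟩
      rw [mem_filter] at hy'
      refine ⟨y', hy'.1, Or.inl ⟨hy'.2, ?_⟩⟩
      rintro z hz ⟨h1, h2⟩
      exact absurd (hm z (mem_filter.mpr ⟨hz, h2⟩)) (not_le.2 h1)
    · obtain ⟨y', hy', hm⟩ := exists_max_image A s ⟨y, hy⟩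
      refine ⟨y', hy', Or.inr ⟨?_, hm⟩⟩
      intro z hz
      by_contra hc
      exact h ⟨z, hz, not_le.1 hc⟩
  choose! g hg1 hg2 using hpre
  have hinj : ∀ x ∈ A, ∀ y ∈ A, g x = g y → x = y := by
    intro x hx y hy hxy
    rcases hg2 x hx with ⟨h1, h2⟩ | ⟨h1, h2⟩
    · rcases hg2 y hy with ⟨h3, h4⟩ | ⟨h3, h4⟩
      · rw [← hxy] at h3 h4
        rcases lt_trichotomy (s x) (s y) with h | h | h
        · exact absurd ⟨h1, h⟩ (h4 x hx)
        · exact hs x hx y hy h
        · exact absurd ⟨h3, h⟩ (h2 y hy)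
      · rw [← hxy] at h4
        exact absurd (h4 x hx) (not_le.2 h1)
    · rcases hg2 y hy with ⟨h3, h4⟩ | ⟨h3, h4⟩
      · rw [← hxy] at h3
        exact absurd (h2 y hy) (not_le.2 h3)
      · exact hs x hx y hy (le_antisymm (h1 y hy) (h3 x hx))
  have hle : (B \ cyc A B s).card ≤ (A \ B).card := by
    refine card_le_card_of_injOn g ?_ ?_
    · intro x hx
      have hx' : x ∈ B \ cyc A B s := by exact_mod_cast hx
      rw [mem_sdiff] at hx'
      have hxA := hBA hx'.1
      rw [mem_coe, mem_sdiff]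
      refine ⟨hg1 x hxA, fun hB => hx'.2 ?_⟩
      rw [cyc, mem_filter]
      exact ⟨hx'.1, g x, hB, hg2 x hxA⟩
    · intro x hx y hy hxy
      have hx' : x ∈ B \ cyc A B s := by exact_mod_cast hx
      have hy' : y ∈ B \ cyc A B s := by exact_mod_cast hy
      exact hinj x (hBA (mem_sdiff.1 hx').1) y (hBA (mem_sdiff.1 hy').1) hxy
  have hsub : cyc A B s ⊆ B := by
    rw [cyc]
    exact filter_subset _ _
  have h1 : (B \ cyc A B s).card = B.card - (cyc A B s).card := card_sdiff_of_subset hsub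
  have h2 : (A \ B).card = A.card - B.card := card_sdiff_of_subset hBA
  have h3 := card_le_card hsub
  have h4 := card_le_card hBA
  omega

end Pool.Agent.Dirac86.Long
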