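import Mathlib

/-!
# Neighbours in a finite linear or cyclic order
-/

set_option autoImplicit false
open Finset Classical

namespace Pool.Agent.Dirac86.Long

/-- the marked elements whose successor (in `A`, w.r.t. `s`) is marked -/
noncomputable def lin {κ : Type*} (A B : Finset κ) (s : κ → ℝ) : Finset κ :=
  B.filter (fun y => ∃ y' ∈ B, s y < s y' ∧ ∀ z ∈ A, ¬ (s y < s z ∧ s z < s y'))

/-- the marked elements whose cyclic predecessor is marked -/
noncomputable def cyc {κ : Type*} (A B : Finset κ) (s : κ → ℝ) : Finset κ :=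
  B.filter (fun y => ∃ y' ∈ B, (s y' < s y ∧ ∀ z ∈ A, ¬ (s y' < s z ∧ s z < s y)) ∨
    ((∀ z ∈ A, s y ≤ s z) ∧ ∀ z ∈ A, s z ≤ s y'))

end Pool.Agent.Dirac86.Long
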