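import Mathlib
import Pool.Agent.Dirac86.Long.Defs
import Pool.Agent.Dirac86.Long.CycCount

/-!
# Cyclic neighbours: cutting a cyclic order
-/

set_option autoImplicit false
open Finset Classical

namespace Pool.Agent.Dirac86.Long

/-- `y'` is the cyclic predecessor of `y` in `A`. -/
private def PP {κ : Type*} (A : Finset κ) (s : κ → ℝ) (y y' : κ) : Prop :=
  (s y' < s y ∧ ∀ z ∈ A, ¬ (s y' < s z ∧ s z < s y)) ∨ ((∀ z ∈ A, s y ≤ s z) ∧ ∀ z ∈ A, s z ≤ s y')

private lemma PP_inj {κ : Type*} {A : Finset κ} {s : κ → ℝ}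
    (hs : ∀ i ∈ A, ∀ j ∈ A, s i = s j → i = j) {y₁ y₂ y' : κ} (h₁ : y₁ ∈ A) (h₂ : y₂ ∈ A)
    (hp₁ : PP A s y₁ y') (hp₂ : PP A s y₂ y') : y₁ = y₂ := by
  apply hs _ h₁ _ h₂
  rcases hp₁ with ⟨a1, a2⟩ | ⟨a1, a2⟩ <;> rcases hp₂ with ⟨b1, b2⟩ | ⟨b1, b2⟩
  · rcases lt_trichotomy (s y₁) (s y₂) with h | h | h
    · exact absurd ⟨a1, h⟩ (b2 _ h₁)
    · exact h
    · exact absurd ⟨b1, h⟩ (a2 _ h₂)
  · have := b2 _ h₁
    linarith
  · have := a2 _ h₂
    linarith
  · exact le_antisymm (a1 _ h₂) (b1 _ h₁)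

private lemma mem_cyc {κ : Type*} {A B : Finset κ} {s : κ → ℝ} {y : κ} :
    y ∈ cyc A B s ↔ y ∈ B ∧ ∃ y' ∈ B, PP A s y y' := by
  unfold cyc PP
  rw [mem_filter]

private lemma inv_iff {a b : ℝ} (h : 0 < a * b) : -1 / a < -1 / b ↔ a < b := by
  have ha : a ≠ 0 := by rintro rfl; simp at h
  have hb : b ≠ 0 := by rintro rfl; simp at h
  have h1 : -1 / b - -1 / a = (b - a) / (a * b) := by
    field_simp
    ring
  constructor
  · intro h2
    have h3 : 0 < (b - a) / (a * b) := by rw [← h1]; linarith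
    have h4 := mul_pos h3 h
    rw [div_mul_cancel₀ _ h.ne'] at h4
    linarith
  · intro h2
    have h3 : 0 < (b - a) / (a * b) := div_pos (by linarith) h
    linarith

private lemma key {κ : Type*} {A : Finset κ} {s : κ → ℝ}
    (hs : ∀ i ∈ A, ∀ j ∈ A, s i = s j → i = j) {y y' y0 : κ} (hy : y ∈ A) (hy' : y' ∈ A) (hy0 : y0 ∈ A)
    {c : ℝ} (hc : ∀ i ∈ A, s i ≠ c) (h1 : c < s y0) (h2 : ∀ i ∈ A, ¬ (c < s i ∧ s i < s y0))
    (hne : y ≠ y0) (hp : PP A s y y') :
    -1 / (s y' - c) < -1 / (s y - c) ∧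
      ∀ z ∈ A, ¬ (-1 / (s y' - c) < -1 / (s z - c) ∧ -1 / (s z - c) < -1 / (s y - c)) := by
  have hr : c < s y → s y0 ≤ s y := fun h => not_lt.1 fun h' => h2 y hy ⟨h, h'⟩
  rcases hp with ⟨p1, p2⟩ | ⟨p1, p2⟩
  · -- both on the same side of `c`
    have hside : 0 < (s y' - c) * (s y - c) := by
      rcases lt_or_gt_of_ne (hc y hy) with h | h
      · exact mul_pos_of_neg_of_neg (by linarith) (by linarith)
      · rcases lt_or_gt_of_ne (hc y' hy') with h' | h'
        · exfalso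
          apply hne
          apply hs _ hy _ hy0
          refine le_antisymm ?_ (hr h)
          exact not_lt.1 fun h3 => p2 y0 hy0 ⟨by linarith, h3⟩
        · exact mul_pos (by linarith) (by linarith)
    refine ⟨(inv_iff hside).2 (by linarith), ?_⟩
    rintro z hz ⟨q1, q2⟩
    -- `z` is on the same side
    rcases lt_or_gt_of_ne (hc y hy) with h | h
    · have hy'c : s y' - c < 0 := by
        by_contra hcon
        nlinarith
      have e1 : 0 < -1 / (s y' - c) := div_pos_of_neg_of_neg (by norm_num) hy'c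
      have hz0 : s z - c < 0 := by
        by_contra hcon
        have : -1 / (s z - c) ≤ 0 := div_nonpos_of_nonpos_of_nonneg (by norm_num) (by linarith)
        linarith
      have q3 := (inv_iff (mul_pos_of_neg_of_neg hy'c hz0)).1 q1
      have q4 := (inv_iff (mul_pos_of_neg_of_neg hz0 (by linarith : s y - c < 0))).1 q2
      exact p2 z hz ⟨by linarith, by linarith⟩
    · have hy'c : 0 < s y' - c := by
        by_contra hcon
        nlinarith
      have e1 : -1 / (s y - c) < 0 := div_neg_of_neg_of_pos (by norm_num) (by linarith)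
      have hz0 : 0 < s z - c := by
        rcases lt_or_gt_of_ne (hc z hz) with h3 | h3
        · exfalso
          have : 0 < -1 / (s z - c) := div_pos_of_neg_of_neg (by norm_num) (by linarith)
          linarith
        · linarith
      have q3 := (inv_iff (mul_pos hy'c hz0)).1 q1
      have q4 := (inv_iff (mul_pos hz0 (by linarith : 0 < s y - c))).1 q2
      exact p2 z hz ⟨by linarith, by linarith⟩
  · have hyc : s y < c := by
      rcases lt_or_gt_of_ne (hc y hy) with h | h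
      · exact h
      · exfalso
        apply hne
        exact hs _ hy _ hy0 (le_antisymm (p1 _ hy0) (hr h))
    have hy'c : c < s y' := lt_of_lt_of_le h1 (p2 _ hy0)
    have e1 : -1 / (s y' - c) < 0 := div_neg_of_neg_of_pos (by norm_num) (by linarith)
    have e2 : 0 < -1 / (s y - c) := div_pos_of_neg_of_neg (by norm_num) (by linarith)
    refine ⟨by linarith, ?_⟩
    rintro z hz ⟨q1, q2⟩
    rcases lt_or_gt_of_ne (hc z hz) with h | h
    · have q3 := (inv_iff (mul_pos_of_neg_of_neg (by linarith : s z - c < 0) (by linarith : s y - c < 0))).1 q2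
      have := p1 z hz
      linarith
    · have q3 := (inv_iff (mul_pos (by linarith : 0 < s y' - c) (by linarith : 0 < s z - c))).1 q1
      have := p2 z hz
      linarith

theorem cyc_cut {κ : Type*} (A B : Finset κ) (hBA : B ⊆ A) (s : κ → ℝ)
    (hs : ∀ i ∈ A, ∀ j ∈ A, s i = s j → i = j) {y0 : κ} (hy0 : y0 ∈ B) {c ε : ℝ}
    (hε : ε = 1 ∨ ε = -1) (hc : ∀ i ∈ A, s i ≠ c) (h1 : c < s y0)
    (h2 : ∀ i ∈ A, ¬ (c < s i ∧ s i < s y0)) :
    ((cyc A B s).erase y0).card ≤ (lin A B (fun i => ε / (s i - c))).card := by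
  have hex : ∀ y, ∃ y', y ∈ cyc A B s → y' ∈ B ∧ PP A s y y' := by
    intro y
    by_cases hy : y ∈ cyc A B s
    · obtain ⟨y', h3, h4⟩ := (mem_cyc.1 hy).2
      exact ⟨y', fun _ => ⟨h3, h4⟩⟩
    · exact ⟨y, fun h => absurd h hy⟩
  choose p hp using hex
  have hcB : ∀ y ∈ cyc A B s, y ∈ B := fun y hy => (mem_cyc.1 hy).1
  rcases hε with rfl | rfl
  · apply card_le_card
    intro y hy
    rw [mem_erase] at hy
    obtain ⟨h3, h4⟩ := hp y hy.2
    obtain ⟨k1, k2⟩ := key hs (hBA (hcB y hy.2)) (hBA h3) (hBA hy0) hc h1 h2 hy.1 h4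
    have hneg : ∀ i, (1 : ℝ) / (s i - c) = -(-1 / (s i - c)) := fun i => by ring
    unfold lin
    rw [mem_filter]
    refine ⟨hcB y hy.2, p y, h3, ?_, ?_⟩
    · show (1 : ℝ) / (s y - c) < 1 / (s (p y) - c)
      rw [hneg, hneg]
      linarith
    · rintro z hz ⟨q1, q2⟩
      simp only [hneg] at q1 q2
      exact k2 z hz ⟨by linarith, by linarith⟩
  · apply Finset.card_le_card_of_injOn p
    · intro y hy
      rw [mem_coe, mem_erase] at hy
      obtain ⟨h3, h4⟩ := hp y hy.2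
      obtain ⟨k1, k2⟩ := key hs (hBA (hcB y hy.2)) (hBA h3) (hBA hy0) hc h1 h2 hy.1 h4
      rw [mem_coe]
      unfold lin
      rw [mem_filter]
      exact ⟨h3, y, hcB y hy.2, k1, k2⟩
    · intro y₁ h₁ y₂ h₂ h
      rw [mem_coe, mem_erase] at h₁ h₂
      have h3 := (hp y₁ h₁.2).2
      have h4 := (hp y₂ h₂.2).2
      rw [h] at h3
      exact PP_inj hs (hBA (hcB y₁ h₁.2)) (hBA (hcB y₂ h₂.2)) h3 h4

end Pool.Agent.Dirac86.Long
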