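import Pool.Agent.Dirac86.Few.Gap
import Pool.Agent.Dirac86.Long.Defs

/-!
# Gaps between neighbouring marked directions
-/

set_option autoImplicit false
open Finset Classical

namespace Pool.Agent.Dirac86.Long

open Pool.Agent.Dirac86.Few.Ga (even_fib even_sub)

/-- G2. -/
theorem gap_count2 {ι κ : Type*} (F : Finset ι) (X Y : ι → ℝ) (b : ι) (hb : b ∈ F)
    (hY : ∀ w ∈ F, w ≠ b → Y w < Y b) (A B : Finset κ) (hBA : B ⊆ A) (s : κ → ℝ)
    (hs : ∀ i ∈ A, ∀ j ∈ A, s i = s j → i = j)
    (hev : ∀ y ∈ B, ∀ r : ℝ, Even (F.filter (fun w => X w - s y * Y w = r)).card) :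
    ∃ G : Finset ℝ, (lin A B s).card ≤ G.card ∧ ∀ σ ∈ G, (∀ i ∈ A, s i ≠ σ) ∧
      Odd ((F.filter (fun w => w ≠ b ∧ X b - X w = σ * (Y b - Y w))).card) := by
  obtain ⟨P, hP⟩ : ∃ P : Finset κ, P = lin A B s := ⟨_, rfl⟩
  have hP2 : P ⊆ B := by
    rw [hP]
    exact filter_subset _ _
  have hex : ∀ y ∈ P, ∃ y' ∈ B, s y < s y' ∧ ∀ z ∈ A, s y < s z → s y' ≤ s z := by
    intro y hy
    rw [hP, lin, mem_filter] at hy
    obtain ⟨_, y', h1, h2, h3⟩ := hy
    exact ⟨y', h1, h2, fun z hz h4 => not_lt.1 fun h5 => h3 z hz ⟨h4, h5⟩⟩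
  choose! f hf1 hf2 hf3 using hex
  have hP3 : ∀ x ∈ P, f x ∈ B ∧ s x < s (f x) ∧ ∀ z ∈ A, s x < s z → s (f x) ≤ s z :=
    fun x hx => ⟨hf1 x hx, hf2 x hx, hf3 x hx⟩
  -- the slopes
  obtain ⟨sl, hsl⟩ : ∃ sl : ι → ℝ, sl = fun w => (X b - X w) / (Y b - Y w) := ⟨_, rfl⟩
  have hslv : ∀ w ∈ F, w ≠ b → ∀ c : ℝ, sl w = c ↔ X b - X w = c * (Y b - Y w) := by
    intro w hw hwb c
    have h1 := sub_pos.2 (hY w hw hwb)
    rw [hsl]
    exact div_eq_iff h1.ne'
  have hslt : ∀ w ∈ F, w ≠ b → ∀ c : ℝ, c < sl w ↔ X w - c * Y w < X b - c * Y b := by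
    intro w hw hwb c
    have h1 := sub_pos.2 (hY w hw hwb)
    rw [hsl]
    show c < (X b - X w) / (Y b - Y w) ↔ _
    rw [lt_div_iff₀ h1]
    constructor
    · intro h; linarith
    · intro h; linarith
  set W := F.erase b with hW
  have hWm : ∀ w, w ∈ W ↔ w ∈ F ∧ w ≠ b := by
    intro w
    rw [hW, mem_erase, and_comm]
  -- the sets above are even
  have hup : ∀ y ∈ B, Even (W.filter (fun w => s y < sl w)).card := by
    intro y hy
    have h1 : W.filter (fun w => s y < sl w) = F.filter (fun w => X w - s y * Y w < X b - s y * Y b) := by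
      ext w
      rw [mem_filter, mem_filter, hWm]
      constructor
      · rintro ⟨⟨h2, h3⟩, h4⟩
        exact ⟨h2, (hslt w h2 h3 _).1 h4⟩
      · rintro ⟨h2, h3⟩
        have h4 : w ≠ b := by
          rintro rfl
          exact lt_irrefl _ h3
        exact ⟨⟨h2, h4⟩, (hslt w h2 h4 _).2 h3⟩
    rw [h1]
    exact even_sub F (fun w => X w - s y * Y w) (hev y hy) _
  have hon : ∀ y ∈ B, Odd (W.filter (fun w => sl w = s y)).card := by
    intro y hy
    have h1 : W.filter (fun w => sl w = s y) =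
        (F.filter (fun w => X w - s y * Y w = X b - s y * Y b)).erase b := by
      ext w
      rw [mem_filter, hWm, mem_erase, mem_filter]
      constructor
      · rintro ⟨⟨h2, h3⟩, h4⟩
        rw [hslv w h2 h3] at h4
        exact ⟨h3, h2, by linarith⟩
      · rintro ⟨h3, h2, h4⟩
        exact ⟨⟨h2, h3⟩, (hslv w h2 h3 _).2 (by linarith)⟩
    have h2 : b ∈ F.filter (fun w => X w - s y * Y w = X b - s y * Y b) := mem_filter.2 ⟨hb, rfl⟩
    have h3 := hev y hy (X b - s y * Y b)
    have h4 : 0 < (F.filter (fun w => X w - s y * Y w = X b - s y * Y b)).card := card_pos.2 ⟨b, h2⟩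
    rw [h1, card_erase_of_mem h2]
    obtain ⟨m, hm⟩ := h3
    exact ⟨m - 1, by omega⟩
  -- an odd fibre between
  have hbet : ∀ y ∈ P, ∃ τ : ℝ, s y < τ ∧ τ < s (f y) ∧ Odd (W.filter (fun w => sl w = τ)).card := by
    intro y hy
    obtain ⟨h1, h2, h3⟩ := hP3 y hy
    have e1 := hup y (hP2 hy)
    have e2 := hup (f y) h1
    have e3 := hon (f y) h1
    have e4 : (W.filter (fun w => s y < sl w)).card = (W.filter (fun w => s y < sl w ∧ sl w < s (f y))).card +
        (W.filter (fun w => sl w = s (f y))).card + (W.filter (fun w => s (f y) < sl w)).card := by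
      rw [← card_union_of_disjoint, ← card_union_of_disjoint]
      · congr 1
        ext w
        simp only [mem_union, mem_filter]
        constructor
        · rintro ⟨h4, h5⟩
          rcases lt_trichotomy (sl w) (s (f y)) with h6 | h6 | h6
          · exact Or.inl (Or.inl ⟨h4, h5, h6⟩)
          · exact Or.inl (Or.inr ⟨h4, h6⟩)
          · exact Or.inr ⟨h4, h6⟩
        · rintro ((⟨h4, h5, h6⟩ | ⟨h4, h6⟩) | ⟨h4, h6⟩)
          · exact ⟨h4, h5⟩
          · exact ⟨h4, by rw [h6]; exact h2⟩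
          · exact ⟨h4, h2.trans h6⟩
      · rw [disjoint_left]
        intro w hw hw'
        simp only [mem_union, mem_filter] at hw hw'
        rcases hw with ⟨_, _, h6⟩ | ⟨_, h6⟩
        · linarith [hw'.2]
        · linarith [hw'.2]
      · rw [disjoint_left]
        intro w hw hw'
        simp only [mem_filter] at hw hw'
        linarith [hw.2.2, hw'.2]
    by_contra hcon
    push Not at hcon
    have e5 : Even (W.filter (fun w => s y < sl w ∧ sl w < s (f y))).card := by
      refine even_fib _ sl fun r => ?_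
      rw [filter_filter]
      by_cases hr : s y < r ∧ r < s (f y)
      · have h4 : W.filter (fun w => (s y < sl w ∧ sl w < s (f y)) ∧ sl w = r) = W.filter (fun w => sl w = r) := by
          apply filter_congr
          intro w _
          constructor
          · exact fun h => h.2
          · intro h
            rw [h]
            exact ⟨hr, rfl⟩
        rw [h4]
        exact Nat.not_odd_iff_even.1 (hcon r hr.1 hr.2)
      · have h4 : W.filter (fun w => (s y < sl w ∧ sl w < s (f y)) ∧ sl w = r) = ∅ := by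
          rw [filter_eq_empty_iff]
          rintro w _ ⟨h5, h6⟩
          exact hr (h6 ▸ h5)
        rw [h4, card_empty]
        exact ⟨0, rfl⟩
    obtain ⟨m1, hm1⟩ := e1
    obtain ⟨m2, hm2⟩ := e2
    obtain ⟨m3, hm3⟩ := e3
    obtain ⟨m5, hm5⟩ := e5
    omega
  choose! τ hτ1 hτ2 hτ3 using hbet
  refine ⟨P.image τ, ?_, ?_⟩
  · rw [card_image_of_injOn]
    · rw [hP]
    · intro x hx y hy hxy
      have hx : x ∈ P := by exact_mod_cast hx
      have hy : y ∈ P := by exact_mod_cast hy
      have hxA := hBA (hP2 hx)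
      have hyA := hBA (hP2 hy)
      rcases lt_trichotomy (s x) (s y) with h1 | h1 | h1
      · have h2 := (hP3 x hx).2.2 y hyA h1
        have h3 := hτ2 x hx
        have h4 := hτ1 y hy
        rw [hxy] at h3
        linarith
      · exact hs x hxA y hyA h1
      · have h2 := (hP3 y hy).2.2 x hxA h1
        have h3 := hτ2 y hy
        have h4 := hτ1 x hx
        rw [hxy] at h4
        linarith
  · intro σ hσ
    rw [mem_image] at hσ
    obtain ⟨y, hy, rfl⟩ := hσ
    constructor
    · intro i hi h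
      have h1 := hτ1 y hy
      have h2 := hτ2 y hy
      rw [← h] at h1 h2
      have h3 := (hP3 y hy).2.2 i hi h1
      linarith
    · have h1 : F.filter (fun w => w ≠ b ∧ X b - X w = τ y * (Y b - Y w)) = W.filter (fun w => sl w = τ y) := by
        ext w
        rw [mem_filter, mem_filter, hWm]
        constructor
        · rintro ⟨h2, h3, h4⟩
          exact ⟨⟨h2, h3⟩, (hslv w h2 h3 _).2 h4⟩
        · rintro ⟨⟨h2, h3⟩, h4⟩
          exact ⟨h2, h3, (hslv w h2 h3 _).1 h4⟩
      rw [h1]
      exact hτ3 y hy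

end Pool.Agent.Dirac86.Long
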