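import Pool.Agent.Dirac86.Few.Hull
import Pool.Agent.Dirac86.Long.Defs
import Pool.Agent.Dirac86.Long.CycCount
import Pool.Agent.Dirac86.Long.Cyc
import Pool.Agent.Dirac86.Long.Gap2
import Pool.Agent.Dirac86.Long.Heads2

/-!
# Long even-rich lines: the points in extreme position
-/

set_option autoImplicit false
open Finset Classical

namespace Pool.Agent.Dirac86.Long

open Pool.Agent.Dirac80 (connectingLines mem_connecting connecting_eq Pl area)
open Pool.Agent.Dirac86.Few (evl)
open Pool.Agent.Dirac86.Few.Hu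

/-- H3. -/
theorem hull_set2 (S : Finset Pl) (hn : Even S.card) (hS : ¬ Collinear ℝ (S : Set Pl))
    {A : Finset Pl} (hA : A ∈ connectingLines S) (hE : Even A.card)
    (hβ : A.card < 2 * (A.filter (fun x => evl S x = 1)).card) (hM : 4 ≤ A.card) :
    ∃ V ⊆ S \ A, ∃ W ⊆ V, V.card = 2 * (A.filter (fun x => evl S x = 1)).card ∧
      V.card + 2 * A.card ≤ W.card + 4 * (A.filter (fun x => evl S x = 1)).card ∧
      (∀ b ∈ V, 2 * (A.filter (fun x => evl S x = 1)).card ≤ evl S b + A.card + 1) ∧
      (∀ b ∈ W, 2 * (A.filter (fun x => evl S x = 1)).card ≤ evl S b + A.card) ∧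
      ∀ T ∈ connectingLines S, (V ∩ T).card ≤ 2 := by
  have hmA := mem_connecting.1 hA
  obtain ⟨a0, h0, a1, h1, h01⟩ := one_lt_card.1 (by omega : 1 < A.card)
  have hAe := connecting_eq hA h0 h1 h01
  have hA0 : ∀ x ∈ A, area a0 a1 x = 0 := by
    intro x hx
    rw [hAe, mem_filter] at hx
    exact hx.2
  have hF0 : ∀ x ∈ S \ A, area a0 a1 x ≠ 0 := by
    intro x hx h
    rw [mem_sdiff] at hx
    apply hx.2
    rw [hAe, mem_filter]
    exact ⟨hx.1, h⟩
  have hF : (S \ A).Nonempty := by
    rw [nonempty_iff_ne_empty]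
    intro h
    rw [sdiff_eq_empty_iff_subset] at h
    exact hS (hmA.2.2.1.subset (by exact_mod_cast h))
  have hsinj : ∀ i ∈ A, ∀ j ∈ A, sc a0 a1 i = sc a0 a1 j → i = j := by
    intro i hi j hj h
    exact ext_sc h01 h (by rw [hA0 i hi, hA0 j hj])
  have hev : ∀ y ∈ A.filter (fun x => evl S x = 1), ∀ r : ℝ,
      Even ((S \ A).filter (fun w => XX a0 a1 w - sc a0 a1 y * YY a0 a1 w = r)).card := by
    intro y hy r
    rw [mem_filter] at hy
    exact even_off hA hE h0 h1 h01 hy.1 hy.2 r
  obtain ⟨V, hVF, f, hVc, hfB, hfib, hV⟩ := heads2 (S \ A) (XX a0 a1) (YY a0 a1)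
    (fun i hi j hj h h' => ext_XY h01 (hF0 i hi) (hF0 j hj) h h') hF A
    (A.filter (fun x => evl S x = 1)) (filter_subset _ _) (sc a0 a1) hsinj (by omega) hev
  have hcc := cyc_count A (A.filter (fun x => evl S x = 1)) (filter_subset _ _) (sc a0 a1) hsinj
  -- the bound at a head
  have hmain : ∀ b ∈ V, ((cyc A (A.filter (fun x => evl S x = 1)) (sc a0 a1)).erase (f b)).card ≤
      evl S b := by
    intro b hb
    obtain ⟨c, ε, hε, hc, hc1, hc2, hmax⟩ := hV b hb
    have hε2 : ε * ε = 1 := by rcases hε with rfl | rfl <;> norm_num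
    have hε0 : ε ≠ 0 := by rcases hε with rfl | rfl <;> norm_num
    have hcut := cyc_cut A (A.filter (fun x => evl S x = 1)) (filter_subset _ _) (sc a0 a1) hsinj
      (hfB b hb) hε hc hc1 hc2
    obtain ⟨G, hG1, hG2⟩ := gap_count2 (S \ A) (YY a0 a1)
      (fun w => ε * (XX a0 a1 w - c * YY a0 a1 w)) b (hVF hb) hmax A
      (A.filter (fun x => evl S x = 1)) (filter_subset _ _) (fun i => ε / (sc a0 a1 i - c))
      (by
        intro i hi j hj h
        have h2 := sub_ne_zero.2 (hc i hi)
        have h3 := sub_ne_zero.2 (hc j hj)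
        have h : ε / (sc a0 a1 i - c) = ε / (sc a0 a1 j - c) := h
        rw [div_eq_div_iff h2 h3] at h
        have h4 := mul_left_cancel₀ hε0 h
        exact hsinj i hi j hj (by linarith))
      (by
        intro y hy r
        have h2 := hev y hy (-(r * (sc a0 a1 y - c)))
        have h3 := sub_ne_zero.2 (hc y (mem_filter.1 hy).1)
        have h4 : (S \ A).filter (fun w => YY a0 a1 w - ε / (sc a0 a1 y - c) *
            (ε * (XX a0 a1 w - c * YY a0 a1 w)) = r) =
            (S \ A).filter (fun w => XX a0 a1 w - sc a0 a1 y * YY a0 a1 w = -(r * (sc a0 a1 y - c))) := by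
          apply filter_congr
          intro w _
          have h5 : YY a0 a1 w - ε / (sc a0 a1 y - c) * (ε * (XX a0 a1 w - c * YY a0 a1 w)) =
              -(XX a0 a1 w - sc a0 a1 y * YY a0 a1 w) / (sc a0 a1 y - c) := by
            rw [eq_div_iff h3]
            have h6 : ε / (sc a0 a1 y - c) * (sc a0 a1 y - c) = ε := div_mul_cancel₀ _ h3
            linear_combination (-(ε * (XX a0 a1 w - c * YY a0 a1 w))) * h6 -
              (XX a0 a1 w - c * YY a0 a1 w) * hε2
          rw [h5, div_eq_iff h3]
          constructor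
          · intro h; linarith
          · intro h; linarith
        rw [h4]
        exact h2)
    have h2 := even_at hA h0 h1 h01 (hVF hb) hε hc hmax G
      (fun σ hσ => ⟨(hG2 σ hσ).1, _, (hG2 σ hσ).2, fun w => by rw [@mem_filter]⟩)
    refine (le_of_eq ?_).trans ((hcut.trans hG1).trans h2)
    congr 1
    apply Finset.ext
    intro z
    rw [@Finset.mem_erase, @Finset.mem_erase]
  set C := cyc A (A.filter (fun x => evl S x = 1)) (sc a0 a1) with hC
  have her : ∀ y, C.card ≤ (C.erase y).card + 1 := by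
    intro y
    have := pred_card_le_card_erase (s := C) (a := y)
    omega
  refine ⟨V, hVF, V.filter (fun b => 2 * (A.filter (fun x => evl S x = 1)).card ≤ evl S b + A.card),
    filter_subset _ _, hVc, ?_, ?_, ?_, ?_⟩
  · -- the exceptional heads
    obtain ⟨Q, hQ⟩ : ∃ Q, Q = V.filter
      (fun b => ¬ 2 * (A.filter (fun x => evl S x = 1)).card ≤ evl S b + A.card) := ⟨_, rfl⟩
    have hsplit := card_filter_add_card_filter_not (s := V)
      (fun b => 2 * (A.filter (fun x => evl S x = 1)).card ≤ evl S b + A.card)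
    rw [← hQ] at hsplit
    rcases Q.eq_empty_or_nonempty with he | ⟨b0, hb0⟩
    · rw [he, card_empty] at hsplit
      omega
    · have hQm : ∀ b ∈ Q, b ∈ V ∧ f b ∈ C ∧
          C.card + A.card ≤ 2 * (A.filter (fun x => evl S x = 1)).card := by
        intro b hb
        rw [hQ, mem_filter] at hb
        have h2 := hmain b hb.1
        have h3 := her (f b)
        refine ⟨hb.1, ?_, by omega⟩
        by_contra hcon
        rw [erase_eq_of_notMem hcon] at h2
        omega
      have hQC : Q.card ≤ 2 * C.card := by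
        have hfib' : ∀ y ∈ C, (Q.filter (fun b => f b = y)).card ≤ 2 := by
          intro y hy
          refine le_trans (card_le_card ?_) (hfib y ?_)
          · intro b hb
            rw [@mem_filter] at hb ⊢
            exact ⟨(hQm b hb.1).1, hb.2⟩
          · rw [hC, cyc, mem_filter] at hy
            exact hy.1
        exact card_le_mul_card_image_of_maps_to (f := f) (fun b hb => (hQm b hb).2.1) 2 hfib'
      have h4 := (hQm b0 hb0).2.2
      omega
  · intro b hb
    have h2 := hmain b hb
    have h3 := her (f b)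
    omega
  · intro b hb
    exact (mem_filter.1 hb).2
  · intro T hT
    by_contra hcon
    rw [not_le, two_lt_card] at hcon
    obtain ⟨b1, hb1, b2, hb2, b3, hb3, h12, h13, h23⟩ := hcon
    rw [mem_inter] at hb1 hb2 hb3
    have hcol := Pool.Agent.Dirac80.area_of_collinear (mem_connecting.1 hT).2.2.1
      (p := b1) (q := b2) (r := b3) (by exact_mod_cast hb1.2) (by exact_mod_cast hb2.2)
      (by exact_mod_cast hb3.2)
    have f1 := hVF hb1.1
    have f2 := hVF hb2.1
    have f3 := hVF hb3.1
    rw [col2 h01 (hF0 b1 f1) (hF0 b2 f2) (hF0 b3 f3)] at hcol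
    obtain ⟨c1, e1, -, -, -, -, m1⟩ := hV b1 hb1.1
    obtain ⟨c2, e2, -, -, -, -, m2⟩ := hV b2 hb2.1
    obtain ⟨c3, e3, -, -, -, -, m3⟩ := hV b3 hb3.1
    exact three hcol (m1 b2 f2 h12.symm) (m1 b3 f3 h13.symm) (m2 b1 f1 h12) (m2 b3 f3 h23.symm)
      (m3 b1 f1 h13) (m3 b2 f2 h23)

end Pool.Agent.Dirac86.Long
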