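import Mathlib
import Pool.Agent.Dirac86.Few.Basic
import Pool.Agent.Dirac86.Few.Count
import Pool.Agent.Dirac86.Long.Hull2

/-!
# Long even-rich lines: the final count
-/

set_option autoImplicit false
open Finset Classical

namespace Pool.Agent.Dirac86.Long

open Pool.Agent.Dirac80 (connectingLines mem_connecting connecting_eq Pl area)
open Pool.Agent.Dirac86.Few (evl evl_odd double cnt_dbl cnt_w cnt_V)

/-- the pointwise inequality -/
private theorem point2 (e m : ℕ) (he : ∃ a, e = 2 * a + 1) (hm : m ≤ e) :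
    (if m = 0 then (e : ℤ) - 1 else 0) + (m : ℤ) * (if (e : ℤ) = 1 then -1 else 1) ≤
      (e : ℤ) - m - 1 + ((if 2 ≤ m then 2 * m + 1 - e else 0 : ℕ) : ℤ) := by
  obtain ⟨a, rfl⟩ := he
  by_cases h0 : m = 0
  · subst h0
    simp
  · rw [if_neg h0]
    by_cases ha : a = 0
    · subst ha
      have h1 : m = 1 := by omega
      subst h1
      simp
    · have h2 : ¬ (((2 * a + 1 : ℕ) : ℤ) = 1) := by
        push_cast
        omega
      rw [if_neg h2]
      by_cases h3 : 2 ≤ m
      · rw [if_pos h3]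
        push_cast
        omega
      · rw [if_neg h3]
        have h1 : m = 1 := by omega
        subst h1
        push_cast
        omega

/-- the sum over the points of the large hulls -/
private theorem sum_V (V W : Finset Pl) (Z : Finset Pl) (hZ : Z ⊆ V) (y : Pl → ℤ) (d : ℤ)
    (hd : 0 ≤ d) (h1 : ∀ b ∈ V, d - 2 ≤ y b) (h2 : ∀ b ∈ W, d ≤ y b)
    (hW : W ⊆ V) (hc : ((V \ W).card : ℤ) ≤ 2 * d) :
    d * ((Z.card : ℤ) - 4) ≤ ∑ b ∈ Z, y b := by
  have h3 : ∑ b ∈ Z, (d - if b ∈ W then 0 else 2) ≤ ∑ b ∈ Z, y b := by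
    refine sum_le_sum (fun b hb => ?_)
    by_cases hbW : b ∈ W
    · rw [if_pos hbW]
      have := h2 b hbW
      omega
    · rw [if_neg hbW]
      exact h1 b (hZ hb)
  have h4 : ∑ b ∈ Z, (if b ∈ W then (0 : ℤ) else 2) = 2 * ((Z.filter (fun b => b ∉ W)).card : ℤ) := by
    have h5 : ∀ b ∈ Z, (if b ∈ W then (0 : ℤ) else 2) = if b ∉ W then 2 else 0 := by
      intro b _
      by_cases hb : b ∈ W <;> simp [hb]
    rw [sum_congr rfl h5, ← sum_filter, sum_const, nsmul_eq_mul]
    ring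
  have h6 : ((Z.filter (fun b => b ∉ W)).card : ℤ) ≤ ((V \ W).card : ℤ) := by
    exact_mod_cast card_le_card (fun b hb => by
      rw [mem_filter] at hb
      exact mem_sdiff.mpr ⟨hZ hb.1, hb.2⟩)
  rw [sum_sub_distrib, h4, sum_const, nsmul_eq_mul] at h3
  have h7 : d * ((Z.card : ℤ) - 4) = (Z.card : ℤ) * d - 4 * d := by ring
  rw [h7]
  linarith

theorem few_long (S : Finset Pl) (hn : Even S.card) (hS : ¬ Collinear ℝ (S : Set Pl))
    (𝓐 : Finset (Finset Pl))
    (h𝓐 : 𝓐 ⊆ (connectingLines S).filter (fun T => 4 ≤ T.card ∧ Even T.card))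
    (hlen : ∀ T ∈ 𝓐, 3 * 𝓐.card ≤ T.card) :
    S.card ≤ ∑ T ∈ (connectingLines S).filter (fun T => Even T.card ∧ T ∉ 𝓐), T.card +
      ∑ x ∈ S.filter (fun x => 2 ≤ (𝓐.filter (fun T => x ∈ T)).card),
        (2 * (𝓐.filter (fun T => x ∈ T)).card + 1 - evl S x) := by
  have hA : ∀ T ∈ 𝓐, T ∈ connectingLines S ∧ 4 ≤ T.card ∧ Even T.card := by
    intro T hT
    have := h𝓐 hT
    rw [mem_filter] at this
    exact this
  have hsub : ∀ T ∈ connectingLines S, T ⊆ S := fun T hT => (mem_connecting.mp hT).1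
  have hsplit : ∀ x, (((connectingLines S).filter (fun T => Even T.card ∧ T ∉ 𝓐)).filter
      (fun T => x ∈ T)).card + (𝓐.filter (fun T => x ∈ T)).card = evl S x := by
    intro x
    unfold Pool.Agent.Dirac86.Few.evl
    rw [← card_union_of_disjoint]
    · congr 1
      ext T
      simp only [mem_union, mem_filter]
      constructor
      · rintro (⟨⟨h1, h2, h3⟩, h4⟩ | ⟨h1, h2⟩)
        · exact ⟨h1, h2, h4⟩
        · exact ⟨(hA T h1).1, (hA T h1).2.2, h2⟩
      · rintro ⟨h1, h2, h3⟩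
        by_cases h4 : T ∈ 𝓐
        · right; exact ⟨h4, h3⟩
        · left; exact ⟨⟨h1, h2, h4⟩, h3⟩
    · rw [disjoint_left]
      intro T h1 h2
      rw [mem_filter, mem_filter] at h1
      rw [mem_filter] at h2
      exact h1.1.2.2 h2.1
  have hodd : ∀ x ∈ S, ∃ a, evl S x = 2 * a + 1 := by
    intro x hx
    obtain ⟨a, ha⟩ := evl_odd S hn hx
    exact ⟨a, by omega⟩
  -- the sum of the sizes of the remaining even lines
  have hR : ((∑ T ∈ (connectingLines S).filter (fun T => Even T.card ∧ T ∉ 𝓐), T.card : ℕ) : ℤ)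
      = ∑ x ∈ S, (((evl S x : ℕ) : ℤ) - (((𝓐.filter (fun T => x ∈ T)).card : ℕ) : ℤ)) := by
    have h1 := cnt_dbl S ((connectingLines S).filter (fun T => Even T.card ∧ T ∉ 𝓐))
      (fun T hT => hsub T (mem_filter.mp hT).1) (fun _ => 1)
    rw [Nat.cast_sum]
    have h2 : ∀ T ∈ (connectingLines S).filter (fun T => Even T.card ∧ T ∉ 𝓐),
        ((T.card : ℕ) : ℤ) = ∑ x ∈ T, (1 : ℤ) := by
      intro T _
      simp
    rw [sum_congr rfl h2, h1]
    refine sum_congr rfl (fun x _ => ?_)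
    have h3 := hsplit x
    rw [← h3]
    push_cast
    ring
  have hw := cnt_dbl S 𝓐 (fun T hT => hsub T (hA T hT).1)
    (fun x => if ((evl S x : ℕ) : ℤ) = 1 then -1 else 1)
  have hpt : ∑ x ∈ S, ((if (𝓐.filter (fun T => x ∈ T)).card = 0 then
      ((evl S x : ℕ) : ℤ) - 1 else 0) + (((𝓐.filter (fun T => x ∈ T)).card : ℕ) : ℤ) *
      (if ((evl S x : ℕ) : ℤ) = 1 then -1 else 1)) ≤
      ∑ x ∈ S, (((evl S x : ℕ) : ℤ) - (((𝓐.filter (fun T => x ∈ T)).card : ℕ) : ℤ) - 1 +
        ((if 2 ≤ (𝓐.filter (fun T => x ∈ T)).card then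
          (2 * (𝓐.filter (fun T => x ∈ T)).card + 1 - evl S x) else 0 : ℕ) : ℤ)) := by
    refine sum_le_sum (fun x hx => ?_)
    refine point2 _ _ (hodd x hx) ?_
    have h3 := hsplit x
    omega
  rw [sum_add_distrib, ← hw, sum_add_distrib, sum_sub_distrib, ← hR] at hpt
  have hone : ∑ x ∈ S, (1 : ℤ) = (S.card : ℤ) := by simp
  rw [hone] at hpt
  have hB : ∑ x ∈ S, ((if 2 ≤ (𝓐.filter (fun T => x ∈ T)).card then
          (2 * (𝓐.filter (fun T => x ∈ T)).card + 1 - evl S x) else 0 : ℕ) : ℤ) =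
      ((∑ x ∈ S.filter (fun x => 2 ≤ (𝓐.filter (fun T => x ∈ T)).card),
        (2 * (𝓐.filter (fun T => x ∈ T)).card + 1 - evl S x) : ℕ) : ℤ) := by
    rw [sum_filter, Nat.cast_sum]
  rw [hB] at hpt
  have hws : ∀ T ∈ 𝓐, ∑ x ∈ T, (if ((evl S x : ℕ) : ℤ) = 1 then (-1 : ℤ) else 1) =
      (T.card : ℤ) - 2 * (((T.filter (fun x => evl S x = 1)).card : ℕ) : ℤ) := by
    intro T _
    rw [cnt_w T (fun x => ((evl S x : ℕ) : ℤ) = 1)]
    have h1 : (T.filter (fun x => ((evl S x : ℕ) : ℤ) = 1)) = T.filter (fun x => evl S x = 1) := by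
      ext x
      rw [mem_filter, mem_filter, Nat.cast_eq_one]
    rw [h1]
  rw [sum_congr rfl hws] at hpt
  set Y : ℤ := ∑ x ∈ S, (if (𝓐.filter (fun T => x ∈ T)).card = 0 then
      ((evl S x : ℕ) : ℤ) - 1 else 0) with hYdef
  -- the core inequality
  have hcore : ∑ T ∈ 𝓐, (2 * (((T.filter (fun x => evl S x = 1)).card : ℕ) : ℤ) - (T.card : ℤ)) ≤
      Y := by
    have hYterm : ∀ x ∈ S, 0 ≤ (if (𝓐.filter (fun T => x ∈ T)).card = 0 then
      ((evl S x : ℕ) : ℤ) - 1 else 0) := by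
      intro x hx
      obtain ⟨a, ha⟩ := hodd x hx
      split_ifs
      · omega
      · exact le_refl 0
    have hY0 : 0 ≤ Y := sum_nonneg hYterm
    rcases 𝓐.eq_empty_or_nonempty with h0 | h0
    · rw [h0, sum_empty]
      exact hY0
    · obtain ⟨T0, hT0, hmax⟩ := exists_max_image 𝓐
        (fun T => 2 * (((T.filter (fun x => evl S x = 1)).card : ℕ) : ℤ) - (T.card : ℤ)) h0
      set d : ℤ := 2 * (((T0.filter (fun x => evl S x = 1)).card : ℕ) : ℤ) - (T0.card : ℤ)
        with hd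
      have hsum : ∑ T ∈ 𝓐, (2 * (((T.filter (fun x => evl S x = 1)).card : ℕ) : ℤ) -
          (T.card : ℤ)) ≤ (𝓐.card : ℤ) * d := by
        have h1 := sum_le_card_nsmul 𝓐 (fun T => 2 * (((T.filter
          (fun x => evl S x = 1)).card : ℕ) : ℤ) - (T.card : ℤ)) d hmax
        rw [nsmul_eq_mul] at h1
        exact h1
      obtain ⟨hc0, h40, hev0⟩ := hA T0 hT0
      have hk1 : (1 : ℤ) ≤ (𝓐.card : ℤ) := by
        have := card_pos.mpr h0
        omega
      have hd2 : d ≤ 0 ∨ 2 ≤ d := by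
        obtain ⟨c, hc⟩ := hev0
        omega
      rcases hd2 with hd2 | hd2
      · have h1 : (𝓐.card : ℤ) * d ≤ 0 := mul_nonpos_of_nonneg_of_nonpos (by omega) hd2
        linarith
      · obtain ⟨V, hV, W, hWV, hVc, hVW, hVe, hWe, hVl⟩ :=
          hull_set2 S hn hS hc0 hev0 (by omega) h40
        have hV0 : ∀ x ∈ V, x ∉ T0 := fun x hx => (mem_sdiff.mp (hV hx)).2
        have hVS : ∀ x ∈ V, x ∈ S := fun x hx => (mem_sdiff.mp (hV hx)).1
        have hcV := cnt_V V T0 𝓐 hT0 hV0 (fun T hT => hVl T (hA T hT).1)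
        have hlen0 := hlen T0 hT0
        have hcard : ((V \ W).card : ℤ) ≤ 2 * d := by
          have h1 := card_sdiff_add_card_eq_card hWV
          omega
        have h1 : d * ((((V.filter (fun x => (𝓐.filter (fun T => x ∈ T)).card = 0)).card : ℕ) : ℤ)
            - 4) ≤ ∑ x ∈ V.filter (fun x => (𝓐.filter (fun T => x ∈ T)).card = 0),
              (((evl S x : ℕ) : ℤ) - 1) := by
          refine sum_V V W _ (filter_subset _ _) (fun x => ((evl S x : ℕ) : ℤ) - 1) d (by omega)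
            ?_ ?_ hWV hcard
          · intro b hb
            have := hVe b hb
            show d - 2 ≤ ((evl S b : ℕ) : ℤ) - 1
            omega
          · intro b hb
            have h2 := hWe b hb
            obtain ⟨a, ha⟩ := hodd b (hVS b (hWV hb))
            obtain ⟨c, hc⟩ := hev0
            show d ≤ ((evl S b : ℕ) : ℤ) - 1
            omega
        have h2 : ∑ x ∈ V.filter (fun x => (𝓐.filter (fun T => x ∈ T)).card = 0),
              (((evl S x : ℕ) : ℤ) - 1) ≤ Y := by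
          have h3 : ∑ x ∈ V.filter (fun x => (𝓐.filter (fun T => x ∈ T)).card = 0),
              (((evl S x : ℕ) : ℤ) - 1) =
              ∑ x ∈ V.filter (fun x => (𝓐.filter (fun T => x ∈ T)).card = 0),
                (if (𝓐.filter (fun T => x ∈ T)).card = 0 then
                  ((evl S x : ℕ) : ℤ) - 1 else 0) := by
            refine sum_congr rfl (fun x hx => ?_)
            rw [if_pos (mem_filter.mp hx).2]
          rw [h3]
          refine sum_le_sum_of_subset_of_nonneg ?_ ?_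
          · intro x hx
            exact hVS x (mem_filter.mp hx).1
          · intro x hx _
            exact hYterm x hx
        have h3 : (𝓐.card : ℤ) ≤
            (((V.filter (fun x => (𝓐.filter (fun T => x ∈ T)).card = 0)).card : ℕ) : ℤ) - 4 := by
          omega
        have h4 : (𝓐.card : ℤ) * d ≤ d *
            ((((V.filter (fun x => (𝓐.filter (fun T => x ∈ T)).card = 0)).card : ℕ) : ℤ) - 4) := by
          rw [mul_comm]
          exact mul_le_mul_of_nonneg_left h3 (by omega)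
        linarith
  have hneg : ∑ T ∈ 𝓐, ((T.card : ℤ) - 2 * (((T.filter (fun x => evl S x = 1)).card : ℕ) : ℤ)) =
      - ∑ T ∈ 𝓐, (2 * (((T.filter (fun x => evl S x = 1)).card : ℕ) : ℤ) - (T.card : ℤ)) := by
    rw [← sum_neg_distrib]
    exact sum_congr rfl (fun T _ => by ring)
  rw [hneg] at hpt
  have hfin : (S.card : ℤ) ≤
      ((∑ T ∈ (connectingLines S).filter (fun T => Even T.card ∧ T ∉ 𝓐), T.card : ℕ) : ℤ) +
      ((∑ x ∈ S.filter (fun x => 2 ≤ (𝓐.filter (fun T => x ∈ T)).card),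
        (2 * (𝓐.filter (fun T => x ∈ T)).card + 1 - evl S x) : ℕ) : ℤ) := by
    linarith
  exact_mod_cast hfin

end Pool.Agent.Dirac86.Long
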